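import Pool.Agent.Helper53.CX.St
import Pool.Agent.Helper83.CO.St

/-!
# Project CO (MP_140278_ag): module PDC, critical torus primes
-/

set_option autoImplicit false

open scoped BigOperators
open MvPolynomial

namespace Pool.Agent.Helper82.CO

open Pool.Agent.Helper53.CX Pool.Agent.Helper83.CO

theorem pdc_not_dvd {k : ℕ} (p : ℂ) (hp : p ≠ 0) (j : Fin (k + 1)) :
    ¬ (X 0 - C p : Pn (k + 1)) ∣ X j := by
  rintro ⟨u, hu⟩
  have h := congrArg (MvPolynomial.eval (Fin.cons p (fun _ => 1) : Fin (k + 1) → ℂ)) hu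
  rw [map_mul, map_sub, eval_X, eval_X, eval_C, Fin.cons_zero, sub_self, zero_mul] at h
  rcases Fin.eq_zero_or_eq_succ j with rfl | ⟨i, rfl⟩
  · exact hp (by simpa using h)
  · simp at h

/-- the translation of the coordinate `x_0` -/
noncomputable def pdcHom (k : ℕ) (p : ℂ) : Pn (k + 1) →ₐ[ℂ] Pn (k + 1) :=
  MvPolynomial.aeval (Fin.cons (X 0 - C p) (fun j => X j.succ))

theorem pdcHom_zero (k : ℕ) (p : ℂ) : pdcHom k p (X 0) = X 0 - C p := by
  rw [pdcHom, MvPolynomial.aeval_X, Fin.cons_zero]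

theorem pdcHom_comp (k : ℕ) (p q : ℂ) (h : p + q = 0) :
    (pdcHom k p).comp (pdcHom k q) = AlgHom.id ℂ _ := by
  apply MvPolynomial.algHom_ext
  intro i
  rcases Fin.eq_zero_or_eq_succ i with rfl | ⟨j, rfl⟩
  · rw [AlgHom.comp_apply, pdcHom_zero, map_sub, pdcHom_zero, AlgHom.id_apply]
    have : pdcHom k p (C q) = C q := by
      rw [pdcHom, MvPolynomial.aeval_C]; rfl
    rw [this, sub_sub, ← C_add, h, C_0, sub_zero]
  · have h1 : ∀ r : ℂ, pdcHom k r (X j.succ) = X j.succ := by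
      intro r
      rw [pdcHom, MvPolynomial.aeval_X, Fin.cons_succ]
    rw [AlgHom.comp_apply, h1, h1, AlgHom.id_apply]

theorem pdc_irr (k : ℕ) (p : ℂ) : Irreducible (X 0 - C p : Pn (k + 1)) := by
  set e : Pn (k + 1) ≃ₐ[ℂ] Pn (k + 1) := AlgEquiv.ofAlgHom (pdcHom k p) (pdcHom k (-p))
    (pdcHom_comp k p (-p) (by ring)) (pdcHom_comp k (-p) p (by ring)) with he
  have h1 : Irreducible (X 0 : Pn (k + 1)) := (MvPolynomial.X_prime (R := ℂ)).irreducible
  have h2 : e (X 0) = X 0 - C p := pdcHom_zero k p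
  rw [← h2]
  exact (MulEquiv.irreducible_iff (e : Pn (k + 1) ≃* Pn (k + 1))).2 h1

theorem pdc_surj (hPHI : StPHI) (k : ℕ) : Function.Surjective (Phi k) := by
  obtain ⟨-, -, -, -, hX⟩ := hPHI k
  have hX0 : Phi k (X 0) = C Polynomial.X := by
    rw [Phi, MvPolynomial.aeval_X, Fin.cons_zero]
  intro g
  induction g using MvPolynomial.induction_on with
  | C q =>
    refine ⟨Polynomial.aeval (X 0 : Pn (k + 1)) q, ?_⟩
    have h : (Phi k).comp (Polynomial.aeval (X 0 : Pn (k + 1))) =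
        IsScalarTower.toAlgHom ℂ (Polynomial ℂ) (MvPolynomial (Fin k) (Polynomial ℂ)) := by
      apply Polynomial.algHom_ext
      rw [AlgHom.comp_apply, Polynomial.aeval_X, hX0]
      rfl
    have h2 := congrArg (fun φ => φ q) h
    exact h2
  | add p q hp hq =>
    obtain ⟨p', hp'⟩ := hp
    obtain ⟨q', hq'⟩ := hq
    exact ⟨p' + q', by rw [map_add, hp', hq']⟩
  | mul_X p i hp =>
    obtain ⟨p', hp'⟩ := hp
    exact ⟨p' * X i.succ, by rw [map_mul, hp', hX]⟩

theorem pdc_inj (hPHI : StPHI) (k : ℕ) : Function.Injective (Phi k) := by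
  rw [injective_iff_map_eq_zero]
  intro f hf
  by_contra hne
  exact ((hPHI k).2.1 f hne).1 hf

theorem pdc_dvd (hPHI : StPHI) (k : ℕ) (p : ℂ) (f : Pn (k + 1)) (r : ℕ) :
    (X 0 - C p) ^ r ∣ f ↔ ∀ m, (Polynomial.X - Polynomial.C p) ^ r ∣ (Phi k f).coeff m := by
  have h0 : Phi k ((X 0 - C p) ^ r) = C ((Polynomial.X - Polynomial.C p) ^ r) := by
    rw [map_pow, (hPHI k).2.2.2.1 p, map_pow]
  rw [← MvPolynomial.C_dvd_iff_dvd_coeff, ← h0]
  constructor
  · rintro ⟨g, rfl⟩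
    exact ⟨Phi k g, map_mul _ _ _⟩
  · rintro ⟨h, hh⟩
    obtain ⟨g, rfl⟩ := pdc_surj hPHI k h
    rw [← map_mul] at hh
    exact ⟨g, pdc_inj hPHI k hh⟩

theorem pdc_min (hPHI : StPHI) (k : ℕ) (p : ℂ) (f : Pn (k + 1)) (hf : f ≠ 0) :
    (∀ m ∈ (Phi k f).support, multiplicity (X 0 - C p) f ≤
      ((Phi k f).coeff m).rootMultiplicity p) ∧
    ∃ m ∈ (Phi k f).support, multiplicity (X 0 - C p) f =
      ((Phi k f).coeff m).rootMultiplicity p := by
  have hirr := pdc_irr k p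
  have hfin : FiniteMultiplicity (X 0 - C p) f :=
    FiniteMultiplicity.of_not_isUnit hirr.not_isUnit hf
  have h1 : ∀ m ∈ (Phi k f).support, multiplicity (X 0 - C p) f ≤
      ((Phi k f).coeff m).rootMultiplicity p := by
    intro m hm
    rw [Polynomial.le_rootMultiplicity_iff (MvPolynomial.mem_support_iff.1 hm)]
    exact (pdc_dvd hPHI k p f _).1 (pow_multiplicity_dvd _ _) m
  refine ⟨h1, ?_⟩
  by_contra hcon
  push Not at hcon
  have h2 : (X 0 - C p) ^ (multiplicity (X 0 - C p) f + 1) ∣ f := by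
    rw [pdc_dvd hPHI]
    intro m
    by_cases hm : m ∈ (Phi k f).support
    · rw [← Polynomial.le_rootMultiplicity_iff (MvPolynomial.mem_support_iff.1 hm)]
      have := h1 m hm
      have := hcon m hm
      omega
    · rw [MvPolynomial.notMem_support_iff.1 hm]
      exact dvd_zero _
  have h3 := (hfin.pow_dvd_iff_le_multiplicity).1 h2
  omega

theorem pdc_ord (hExt : StExt) (hPad : StPad) {n : ℕ} (P : Pn n) (hP : Irreducible P)
    (f : Pn n) (hf : f ≠ 0) :
    padOrd P (algebraMap (Pn n) (Kn n) f) = (multiplicity P f : ℤ) := by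
  obtain ⟨mmul, madd, mdvd⟩ := hPad n P hP
  obtain ⟨-, -, -, Ealg⟩ := hExt n (fun p => (multiplicity P p : ℤ))
    (fun p q hp hq => by rw [mmul p q hp hq]; push_cast; rfl)
    (fun p q hp hq hpq => by
      have := madd p q hp hq hpq
      exact_mod_cast this)
  exact Ealg f hf

theorem pdc_pr {k : ℕ} (m : ℤ) (α : Fin k → ℤ) :
    pr (Pi.single 0 1 : Fin (k + 1) → ℤ) m α = m := by
  have h : ∀ j : Fin k, (Pi.single 0 1 : Fin (k + 1) → ℤ) j.succ = 0 := fun j =>
    Pi.single_eq_of_ne (Fin.succ_ne_zero j) _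
  unfold pr
  rw [Pi.single_eq_same, one_mul, Finset.sum_eq_zero (fun j _ => by rw [h, zero_mul]), add_zero]

theorem hPDC (hPHI : StPHI) (hUNI : StUNI) (_hEX : StEX) (hExt : StExt) (hPad : StPad)
    (hPadV : StPadV) : StPDC := by
  intro k
  have htp : ∀ p : ℂ, p ≠ 0 → TorusPrime (X 0 - C p : Pn (k + 1)) := fun p hp =>
    ⟨pdc_irr k p, fun j hj => pdc_not_dvd p hp j hj.dvd⟩
  have hval : ∀ (p : ℂ) (v : DivVal (Kn (k + 1))), v.ord = padOrd (X 0 - C p) →
      IsVal v (some p) (Pi.single 0 1) := by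
    intro p v hv f hf
    obtain ⟨h1, h2⟩ := pdc_min hPHI k p f hf
    have h3 := pdc_ord hExt hPad (X 0 - C p) (pdc_irr k p) f hf
    rw [hv, h3]
    refine ⟨fun m hm => ?_, ?_⟩
    · rw [pdc_pr]
      have := h1 m hm
      simp only [zs]
      exact_mod_cast this
    · obtain ⟨m, hm, h4⟩ := h2
      refine ⟨m, hm, ?_⟩
      rw [pdc_pr]
      simp only [zs]
      exact_mod_cast h4
  refine ⟨htp, ?_, ?_⟩
  · intro p v _
    refine ⟨hval p v, fun hv => ?_⟩
    obtain ⟨v0, hv0⟩ := (hPadV (k + 1) (X 0 - C p) (pdc_irr k p)).1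
    have := (hUNI k).1 (some p) _ v v0 hv (hval p v0 hv0)
    rw [this, hv0]
  · intro s a u v Q hau ha0 hv hQ hvQ
    obtain ⟨-, U2, U3, -, U5, U6, U7, -⟩ := hUNI k
    have hx := ((hPadV (k + 1) Q hQ.1).2 hQ v hvQ).1
    obtain ⟨h0, hj⟩ := U3 s a v hv
    have ha : ∀ j : Fin k, a j.succ = 0 := fun j => by rw [← hj j, hx]
    have h1 : a 0 * u 0 = 1 := by
      rw [Fin.sum_univ_succ, Finset.sum_eq_zero (fun j _ => by rw [ha j, zero_mul]), add_zero] at hau
      exact hau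
    have h2 : a 0 = 1 := by
      rcases Int.eq_one_or_neg_one_of_mul_eq_one h1 with h | h
      · exact h
      · omega
    have h3 : eps s = 0 := by
      rw [hx, h2, one_mul] at h0
      exact h0.symm
    have h4 : a = Pi.single 0 1 := by
      funext j
      rcases Fin.eq_zero_or_eq_succ j with rfl | ⟨i, rfl⟩
      · rw [h2, Pi.single_eq_same]
      · rw [ha, Pi.single_eq_of_ne (Fin.succ_ne_zero i)]
    cases s with
    | none => rw [U6] at h3; omega
    | some p =>
      have hp : p ≠ 0 := by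
        rintro rfl
        rw [U7] at h3
        omega
      refine ⟨p, hp, rfl, h4, ?_⟩
      have h5 := U2 (some p) a v p hv
      rw [h2, (U5 p).2.1, one_mul] at h5
      have h6 : (x 0 - algebraMap ℂ (Kn (k + 1)) p) =
          algebraMap (Pn (k + 1)) (Kn (k + 1)) (X 0 - C p) := by
        rw [map_sub]
        congr 1
      have hirr := pdc_irr k p
      rw [h6, hvQ, pdc_ord hExt hPad Q hQ.1 _ hirr.ne_zero] at h5
      have h7 : Q ∣ X 0 - C p := ((hPad (k + 1) Q hQ.1).2.2 _ hirr.ne_zero).2 (by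
        have : multiplicity Q (X 0 - C p) = 1 := by exact_mod_cast h5
        omega)
      exact hQ.1.associated_of_dvd hirr h7

end Pool.Agent.Helper82.CO
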